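import Mathlib

/-!
The well order `Om` of type `ω₁` and a coherent family of finite-to-one functions on it.
-/

namespace Pool.Agent.Lib.Pb69c94

open Set Cardinal

/-- The well order of type `ω₁`. -/
abbrev Om : Type := (Cardinal.aleph 1).ord.ToType

lemma Om.countable_Iio (a : Om) : (Set.Iio a).Countable := by
  have h : #(Set.Iio a) < Cardinal.aleph 1 := by
    have := mk_Iio_lt a (by simp)
    simpa using this
  rw [← Cardinal.le_aleph0_iff_set_countable]
  rw [← Order.lt_succ_iff, ← Cardinal.aleph_zero, Cardinal.succ_aleph]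
  simpa using h

lemma Om.countable_Iic (a : Om) : (Set.Iic a).Countable := by
  rw [← Set.Iio_insert]
  exact (Om.countable_Iio a).insert a

lemma Om.not_countable : ¬ (Set.univ : Set Om).Countable := by
  rw [← Cardinal.le_aleph0_iff_set_countable]
  simp

/-- Every countable subset of `Om` is strictly bounded. -/
lemma Om.exists_bound {S : Set Om} (hS : S.Countable) : ∃ b : Om, ∀ s ∈ S, s < b := by
  by_contra hcon
  push Not at hcon
  apply Om.not_countable
  have : (Set.univ : Set Om) ⊆ ⋃ s ∈ S, Set.Iic s := by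
    intro x _
    obtain ⟨s, hs, hx⟩ := hcon x
    exact Set.mem_biUnion hs hx
  exact (hS.biUnion (fun s _ => Om.countable_Iic s)).mono this

/-- An injection of `Iio b` into `ℕ`, extended to all of `Om`. -/
lemma Om.exists_inj (b : Om) : ∃ g : Om → ℕ, Set.InjOn g (Set.Iio b) :=
  (Set.countable_iff_exists_injOn).1 (Om.countable_Iio b)

/-- The chosen enumeration of `Iio b`. -/
noncomputable def enum (b : Om) : Om → ℕ := (Om.exists_inj b).choose

lemma enum_injOn (b : Om) : Set.InjOn (enum b) (Set.Iio b) := (Om.exists_inj b).choose_spec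

/-- For `x < b`, an element `c` with `x ≤ c < b` and minimal index. -/
lemma exists_pick (b x : Om) (h : x < b) :
    ∃ c, (x ≤ c ∧ c < b) ∧ ∀ d, x ≤ d → d < b → enum b c ≤ enum b d := by
  have hne : ((enum b) '' {c | x ≤ c ∧ c < b}).Nonempty := ⟨enum b x, x, ⟨le_refl x, h⟩, rfl⟩
  have hmem := Nat.sInf_mem hne
  obtain ⟨c, hc, hce⟩ := hmem
  refine ⟨c, hc, fun d hd1 hd2 => ?_⟩
  rw [hce]
  exact Nat.sInf_le ⟨d, ⟨hd1, hd2⟩, rfl⟩

open Classical in
/-- the chosen element -/
noncomputable def pick (b x : Om) : Om :=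
  if h : x < b then (exists_pick b x h).choose else x

lemma pick_spec {b x : Om} (h : x < b) :
    (x ≤ pick b x ∧ pick b x < b) ∧ ∀ d, x ≤ d → d < b → enum b (pick b x) ≤ enum b d := by
  unfold pick
  rw [dif_pos h]
  exact (exists_pick b x h).choose_spec

open Classical in
/-- The coherent family. -/
noncomputable def coh : Om → Om → ℕ :=
  WellFounded.fix (wellFounded_lt (α := Om)) (fun b IH x =>
    if h : x < b then max (enum b (pick b x)) (IH (pick b x) (pick_spec h).1.2 x) else 0)

open Classical in
lemma coh_eq (b x : Om) :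
    coh b x = if x < b then max (enum b (pick b x)) (coh (pick b x) x) else 0 := by
  conv_lhs => rw [coh, WellFounded.fix_eq]
  by_cases h : x < b
  · simp only [h, dif_pos, if_true]
    rfl
  · simp [h]

lemma coh_of_lt {b x : Om} (h : x < b) :
    coh b x = max (enum b (pick b x)) (coh (pick b x) x) := by
  rw [coh_eq]; simp [h]

lemma coh_of_not_lt {b x : Om} (h : ¬ x < b) : coh b x = 0 := by
  rw [coh_eq]; simp [h]

/-- only finitely many elements of `Iio b` have index at most `k` -/
lemma enum_le_finite (b : Om) (k : ℕ) : {c | c < b ∧ enum b c ≤ k}.Finite := by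
  have : {c | c < b ∧ enum b c ≤ k} ⊆ (Set.Iio b) ∩ (enum b) ⁻¹' (Set.Iic k) := fun c hc => hc
  refine Set.Finite.subset ?_ this
  exact Set.Finite.of_finite_image ((Set.finite_Iic k).subset (by
    rintro _ ⟨c, hc, rfl⟩; exact hc.2)) ((enum_injOn b).mono Set.inter_subset_left)

/-- `coh b` is finite-to-one on `Iio b`. -/
lemma coh_finite (b : Om) : ∀ k : ℕ, {x | x < b ∧ coh b x ≤ k}.Finite := by
  induction b using WellFoundedLT.induction with
  | ind b IH =>
    intro k
    have hsub : {x | x < b ∧ coh b x ≤ k} ⊆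
        ⋃ c ∈ {c | c < b ∧ enum b c ≤ k}, ({c} ∪ {x | x < c ∧ coh c x ≤ k}) := by
      rintro x ⟨hx, hxk⟩
      have hs := pick_spec hx
      rw [coh_of_lt hx] at hxk
      have h1 : enum b (pick b x) ≤ k := le_trans (le_max_left _ _) hxk
      have h2 : coh (pick b x) x ≤ k := le_trans (le_max_right _ _) hxk
      refine Set.mem_biUnion (x := pick b x) ⟨hs.1.2, h1⟩ ?_
      rcases lt_or_eq_of_le hs.1.1 with h | h
      · right; exact ⟨h, h2⟩
      · left; exact h
    refine Set.Finite.subset ?_ hsub
    refine Set.Finite.biUnion (enum_le_finite b k) ?_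
    rintro c ⟨hc, -⟩
    exact (Set.finite_singleton c).union (IH c hc k)

/-- coherence: symmetric form for `a ≤ b`. -/
lemma coh_coherent_aux (b : Om) :
    ∀ a, a < b → {x | x < a ∧ coh a x ≠ coh b x}.Finite := by
  induction b using WellFoundedLT.induction with
  | ind b IH =>
    intro a hab
    -- coherence between any two elements below `b`
    have key : ∀ c, c < b → {x | x < a ∧ x < c ∧ coh a x ≠ coh c x}.Finite := by
      intro c hc
      rcases lt_trichotomy a c with h | h | h
      · refine (IH c hc a h).subset ?_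
        rintro x ⟨h1, -, h3⟩; exact ⟨h1, h3⟩
      · subst h
        refine Set.finite_empty.subset ?_
        rintro x ⟨-, -, h3⟩; exact (h3 rfl).elim
      · refine (IH a hab c h).subset ?_
        rintro x ⟨-, h2, h3⟩; exact ⟨h2, fun h => h3 h.symm⟩
    have hsub : {x | x < a ∧ coh a x ≠ coh b x} ⊆
        ⋃ c ∈ {c | c < b ∧ enum b c ≤ enum b a},
          ({c} ∪ ({x | x < a ∧ x < c ∧ coh a x ≠ coh c x} ∪ {x | x < c ∧ coh c x ≤ enum b a})) := by
      rintro x ⟨hx, hne⟩
      have hxb : x < b := hx.trans hab
      have hs := pick_spec hxb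
      have h1 : enum b (pick b x) ≤ enum b a := hs.2 a hx.le hab
      refine Set.mem_biUnion (x := pick b x) ⟨hs.1.2, h1⟩ ?_
      rcases lt_or_eq_of_le hs.1.1 with h | h
      · right
        by_cases h2 : coh (pick b x) x ≤ enum b a
        · right; exact ⟨h, h2⟩
        · left
          refine ⟨hx, h, ?_⟩
          intro heq
          apply hne
          rw [coh_of_lt hxb, heq]
          symm
          apply max_eq_right
          omega
      · left; exact h
    refine Set.Finite.subset ?_ hsub
    refine Set.Finite.biUnion (enum_le_finite b _) ?_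
    rintro c ⟨hc, -⟩
    exact (Set.finite_singleton c).union ((key c hc).union (coh_finite c _))

lemma coh_coherent {a b : Om} (h : a ≤ b) : {x | x < a ∧ coh a x ≠ coh b x}.Finite := by
  rcases lt_or_eq_of_le h with h | h
  · exact coh_coherent_aux b a h
  · subst h
    refine Set.finite_empty.subset ?_
    rintro x ⟨-, h3⟩; exact (h3 rfl).elim

end Pool.Agent.Lib.Pb69c94
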