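import Pool.Agent.Lib.Pb69c94.Tree

/-!
One-sided lexicographic topologies on the Aronszajn tree.
-/

namespace Pool.Agent.Lib.Pb69c94

open Set Topology

/-- The basic neighbourhood of `t` given by `g < t.ht`. -/
def Nb (R : ℕ → ℕ → Prop) (t : Node) (g : Om) : Set Node :=
  {u | g < u.ht ∧ (∀ x, x ≤ g → u.f x = t.f x) ∧ (Ext u t ∨ Lft R u t)}

/-- strict total order requirements on the relation on values -/
structure Good (R : ℕ → ℕ → Prop) : Prop where
  irr : ∀ a, ¬ R a a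
  asym : ∀ a b, R a b → ¬ R b a
  tot : ∀ a b, a ≠ b → R a b ∨ R b a

lemma good_lt : Good (· < ·) := ⟨fun a => lt_irrefl a, fun _ _ h h' => lt_asymm h h',
  fun _ _ h => lt_or_gt_of_ne h⟩

lemma good_gt : Good (· > ·) := ⟨fun a => lt_irrefl a, fun _ _ h h' => lt_asymm h h',
  fun _ _ h => (lt_or_gt_of_ne h).symm⟩

variable {R R' : ℕ → ℕ → Prop}

lemma mem_Nb_self {t : Node} {g : Om} (hg : g < t.ht) : t ∈ Nb R t g :=
  ⟨hg, fun _ _ => rfl, Or.inl (Ext.refl t)⟩

lemma Nb_mono {t : Node} {g g' : Om} (h : g ≤ g') : Nb R t g' ⊆ Nb R t g := by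
  rintro u ⟨h1, h2, h3⟩
  exact ⟨lt_of_le_of_lt h h1, fun x hx => h2 x (hx.trans h), h3⟩

/-- basic neighbourhoods are open -/
lemma Nb_open (hR : Good R) {t u : Node} {g : Om} (hu : u ∈ Nb R t g) :
    ∃ g', g' < u.ht ∧ Nb R u g' ⊆ Nb R t g := by
  obtain ⟨h1, h2, h3 | ⟨d, hd1, hd2, hd3, hd4⟩⟩ := hu
  · refine ⟨g, h1, ?_⟩
    rintro w ⟨hw1, hw2, hw3⟩
    refine ⟨hw1, fun x hx => (hw2 x hx).trans (h2 x hx), ?_⟩
    rcases hw3 with hw3 | ⟨d, hd1, hd2, hd3, hd4⟩
    · exact Or.inl (hw3.trans h3)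
    · right
      refine ⟨d, hd1, lt_of_lt_of_le hd2 h3.1, fun x hx => ?_, ?_⟩
      · rw [hd3 x hx, h3.2 x (hx.trans hd2)]
      · rw [← h3.2 d hd2]; exact hd4
  · have hgd : g < d := by
      by_contra hcon
      push Not at hcon
      apply hR.irr (t.f d)
      rw [h2 d hcon] at hd4
      exact hd4
    refine ⟨d, hd1, ?_⟩
    rintro w ⟨hw1, hw2, -⟩
    refine ⟨hgd.trans hw1, fun x hx => (hw2 x (hx.trans hgd.le)).trans (h2 x hx), Or.inr ?_⟩
    refine ⟨d, hw1, hd2, fun x hx => (hw2 x hx.le).trans (hd3 x hx), ?_⟩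
    rw [hw2 d le_rfl]; exact hd4

/-- Separation of distinct points (also for two different relations). -/
lemma Nb_sep (hR : Good R) (hR' : Good R') {t u : Node} (hne : t ≠ u) :
    ∃ g, g < t.ht ∧ ∃ g', g' < u.ht ∧ Disjoint (Nb R t g) (Nb R' u g') := by
  have key : ∀ (Q Q' : ℕ → ℕ → Prop), Good Q → ∀ s v : Node, Ext s v → s ≠ v →
      ∃ g, g < s.ht ∧ ∃ g', g' < v.ht ∧ Disjoint (Nb Q s g) (Nb Q' v g') := by
    intro Q Q' hQ s v hsv hsne
    obtain ⟨g, hg⟩ := s.pos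
    have hlt : s.ht < v.ht := by
      rcases lt_or_eq_of_le hsv.1 with h | h
      · exact h
      · exact (hsne (Node.ext_of_le hsv h.ge)).elim
    refine ⟨g, hg, s.ht, hlt, ?_⟩
    rw [Set.disjoint_left]
    rintro w ⟨hw1, hw2, hw3⟩ ⟨hw4, hw5, -⟩
    rcases hw3 with h | ⟨d, hd1, hd2, hd3, hd4⟩
    · exact absurd hw4 (not_lt.2 h.1)
    · have h1 : w.f d = s.f d := (hw5 d hd2.le).trans (hsv.2 d hd2).symm
      rw [h1] at hd4
      exact hQ.irr _ hd4
  rcases tri R hR.tot t u with h | h | h | h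
  · exact key R R' hR t u h hne
  · obtain ⟨g, hg, g', hg', hd⟩ := key R' R hR' u t h (Ne.symm hne)
    exact ⟨g', hg', g, hg, hd.symm⟩
  · obtain ⟨d, hd1, hd2, hd3, hd4⟩ := h
    refine ⟨d, hd1, d, hd2, ?_⟩
    rw [Set.disjoint_left]
    rintro w ⟨-, hw2, -⟩ ⟨-, hw5, -⟩
    rw [← hw2 d le_rfl, ← hw5 d le_rfl] at hd4
    exact hR.irr _ hd4
  · obtain ⟨d, hd1, hd2, hd3, hd4⟩ := h
    refine ⟨d, hd2, d, hd1, ?_⟩
    rw [Set.disjoint_left]
    rintro w ⟨-, hw2, -⟩ ⟨-, hw5, -⟩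
    rw [← hw2 d le_rfl, ← hw5 d le_rfl] at hd4
    exact hR.irr _ hd4

/-- basic neighbourhoods are closed -/
lemma Nb_closed (hR : Good R) {t u : Node} {g : Om} (hg : g < t.ht) (hu : u ∉ Nb R t g) :
    ∃ g', g' < u.ht ∧ Disjoint (Nb R u g') (Nb R t g) := by
  rcases tri R hR.tot u t with h | h | h | h
  · -- `u ≤ t`
    have hug : u.ht ≤ g := by
      by_contra hcon
      push Not at hcon
      exact hu ⟨hcon, fun x hx => h.2 x (lt_of_le_of_lt hx hcon), Or.inl h⟩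
    obtain ⟨g', hg'⟩ := u.pos
    refine ⟨g', hg', ?_⟩
    rw [Set.disjoint_left]
    rintro w ⟨hw1, hw2, hw3⟩ ⟨hw4, hw5, -⟩
    rcases hw3 with hw3 | ⟨d, hd1, hd2, hd3, hd4⟩
    · exact absurd hw4 (not_lt.2 (hw3.1.trans hug))
    · rw [h.2 d hd2, ← hw5 d (hd2.le.trans hug)] at hd4
      exact hR.irr _ hd4
  · -- `t ≤ u`
    by_cases hlt : t.ht < u.ht
    · refine ⟨t.ht, hlt, ?_⟩
      rw [Set.disjoint_left]
      rintro w ⟨hw1, hw2, -⟩ ⟨hw4, hw5, hw6⟩
      rcases hw6 with hw6 | ⟨d, hd1, hd2, hd3, hd4⟩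
      · exact absurd hw1 (not_lt.2 hw6.1)
      · rw [hw2 d hd2.le, h.2 d hd2] at hd4
        exact hR.irr _ hd4
    · have := Node.ext_of_le h (not_lt.1 hlt)
      rw [← this] at hu
      exact (hu (mem_Nb_self hg)).elim
  · -- `u` left of `t`
    obtain ⟨d, hd1, hd2, hd3, hd4⟩ := h
    have hdg : d ≤ g := by
      by_contra hcon
      push Not at hcon
      exact hu ⟨hcon.trans hd1, fun x hx => hd3 x (lt_of_le_of_lt hx hcon),
        Or.inr ⟨d, hd1, hd2, hd3, hd4⟩⟩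
    refine ⟨d, hd1, ?_⟩
    rw [Set.disjoint_left]
    rintro w ⟨hw1, hw2, -⟩ ⟨hw4, hw5, hw6⟩
    rw [← hw2 d le_rfl, ← hw5 d hdg] at hd4
    exact hR.irr _ hd4
  · -- `t` left of `u`
    obtain ⟨d, hd1, hd2, hd3, hd4⟩ := h
    refine ⟨d, hd2, ?_⟩
    rw [Set.disjoint_left]
    rintro w ⟨hw1, hw2, -⟩ ⟨hw4, hw5, hw6⟩
    rcases hw6 with hw6 | ⟨d', hd1', hd2', hd3', hd4'⟩
    · rw [← hw6.2 d hw1, hw2 d le_rfl] at hd4
      exact hR.irr _ hd4
    · rcases lt_trichotomy d' d with hlt | heq | hgt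
      · rw [hw2 d' hlt.le, ← hd3 d' hlt] at hd4'
        exact hR.irr _ hd4'
      · subst heq
        rw [hw2 d' le_rfl] at hd4'
        exact hR.asym _ _ hd4 hd4'
      · have := hd3' d hgt
        rw [← this, hw2 d le_rfl] at hd4
        exact hR.irr _ hd4

/-- The tree with the topology given by the relation `R`. -/
def Sp (_ : ℕ → ℕ → Prop) : Type := Node

instance (R : ℕ → ℕ → Prop) : TopologicalSpace (Sp R) where
  IsOpen U := ∀ t : Node, t ∈ U → ∃ g, g < t.ht ∧ Nb R t g ⊆ U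
  isOpen_univ := fun t _ => by
    obtain ⟨g, hg⟩ := t.pos
    exact ⟨g, hg, Set.subset_univ _⟩
  isOpen_inter := by
    intro U V hU hV t ht
    obtain ⟨g1, hg1, h1⟩ := hU t ht.1
    obtain ⟨g2, hg2, h2⟩ := hV t ht.2
    exact ⟨max g1 g2, max_lt hg1 hg2, Set.subset_inter
      ((Nb_mono (le_max_left _ _)).trans h1) ((Nb_mono (le_max_right _ _)).trans h2)⟩
  isOpen_sUnion := by
    intro S hS t ⟨U, hU, ht⟩
    obtain ⟨g, hg, h⟩ := hS U hU t ht
    exact ⟨g, hg, h.trans (Set.subset_sUnion_of_mem hU)⟩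

lemma isOpen_iff {U : Set (Sp R)} :
    IsOpen U ↔ ∀ t : Node, t ∈ U → ∃ g, g < t.ht ∧ Nb R t g ⊆ U := Iff.rfl

lemma isOpen_Nb (hR : Good R) {t : Node} {g : Om} :
    IsOpen (X := Sp R) (Nb R t g) := fun _ hu => Nb_open hR hu

lemma isClosed_Nb (hR : Good R) {t : Node} {g : Om} (hg : g < t.ht) :
    IsClosed (X := Sp R) (Nb R t g) := by
  refine ⟨?_⟩
  intro u hu
  obtain ⟨g', hg', hd⟩ := Nb_closed hR hg hu
  exact ⟨g', hg', hd.subset_compl_right⟩

lemma t2 (hR : Good R) : T2Space (Sp R) := by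
  refine ⟨fun t u hne => ?_⟩
  obtain ⟨g, hg, g', hg', hd⟩ := Nb_sep hR hR (t := t) (u := u) hne
  exact ⟨_, _, isOpen_Nb hR, isOpen_Nb hR, mem_Nb_self hg, mem_Nb_self hg', hd⟩

/-- the cone above a node -/
def Cone (v : Node) : Set Node := {u | Ext v u}

/-- The main combinatorial lemma: in an uncountable downward closed set `B` there is a node `t`
every neighbourhood of which contains a full cone above some element of `B`. -/
lemma core (hR : Good R) (B : Set Node) (hB : ∀ v ∈ B, ∀ u, Ext u v → u ∈ B)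
    (hunc : ¬ B.Countable) :
    ∃ t ∈ B, ∀ g, g < t.ht → ∃ v ∈ B, Cone v ⊆ Nb R t g := by
  classical
  -- the leftmost elements above `s` form a chain
  let L : Node → Set Node := fun s =>
    {t | t ∈ B ∧ Ext s t ∧ ¬ ∃ v ∈ B, Ext s v ∧ Lft R v t}
  have hL : ∀ s, (L s).Countable := by
    intro s
    apply chain_countable
    rintro t ⟨ht1, ht2, ht3⟩ t' ⟨ht1', ht2', ht3'⟩
    rcases tri R hR.tot t t' with h | h | h | h
    · exact Or.inl h
    · exact Or.inr h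
    · exact (ht3' ⟨t, ht1, ht2, h⟩).elim
    · exact (ht3 ⟨t', ht1', ht2', h⟩).elim
  have hphi : ∀ a : Om, ∃ b : Om, a < b ∧ ∀ s : Node, s.ht ≤ a → ∀ t ∈ L s, t.ht < b := by
    intro a
    have hc : ((⋃ s ∈ {s : Node | s.ht ≤ a}, (fun t : Node => t.ht) '' L s) ∪ {a}).Countable :=
      ((below_countable a).biUnion (fun s _ => (hL s).image _)).union (Set.countable_singleton a)
    obtain ⟨b, hb⟩ := Om.exists_bound hc
    refine ⟨b, hb a (Or.inr rfl), fun s hs t ht => hb t.ht (Or.inl ?_)⟩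
    exact Set.mem_biUnion (x := s) hs ⟨t, ht, rfl⟩
  choose φ hφ1 hφ2 using hphi
  obtain ⟨t0, ht0⟩ : B.Nonempty := by
    by_contra h
    rw [Set.not_nonempty_iff_eq_empty] at h
    exact hunc (by rw [h]; exact Set.countable_empty)
  let a : ℕ → Om := fun n => φ^[n] t0.ht
  have ha : ∀ n, a (n + 1) = φ (a n) := fun n => Function.iterate_succ_apply' φ n _
  have halt : ∀ n, a n < a (n + 1) := fun n => by rw [ha]; exact hφ1 _
  obtain ⟨δ, hδ, hmin⟩ := WellFounded.has_min (wellFounded_lt (α := Om))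
    {d | ∀ n, a n < d} (by
      obtain ⟨b, hb⟩ := Om.exists_bound (Set.countable_range a)
      exact ⟨b, fun n => hb _ ⟨n, rfl⟩⟩)
  have hδ' : ∀ n, a n < δ := hδ
  have hcof : ∀ x, x < δ → ∃ n, x ≤ a n := by
    intro x hx
    by_contra hcon
    push Not at hcon
    exact hmin x hcon hx
  -- an element of `B` above `δ`
  obtain ⟨t', ht'B, ht'⟩ : ∃ t' ∈ B, δ ≤ t'.ht := by
    by_contra hcon
    push Not at hcon
    exact hunc ((below_countable δ).mono (fun t ht => (hcon t ht).le))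
  have hpos : ∃ c, c < δ := ⟨a 0, hδ' 0⟩
  refine ⟨t'.res δ ht' hpos, hB t' ht'B _ (t'.res_ext δ ht' hpos), ?_⟩
  set t := t'.res δ ht' hpos with htdef
  have htB : t ∈ B := hB t' ht'B _ (t'.res_ext δ ht' hpos)
  have hth : t.ht = δ := rfl
  intro g hg
  obtain ⟨n, hn⟩ := hcof g hg
  have hle : a (n + 1) ≤ t.ht := (hδ' _).le
  have hps : ∃ c, c < a (n + 1) := ⟨a n, halt n⟩
  set s := t.res (a (n + 1)) hle hps with hsdef
  have hsh : s.ht = a (n + 1) := rfl
  have hst : Ext s t := t.res_ext _ hle hps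
  have hnot : t ∉ L s := by
    intro hmem
    have := hφ2 (a (n + 1)) s (by rw [hsh]) t hmem
    rw [← ha, hth] at this
    exact lt_asymm this (hδ' _)
  have hex : ∃ v ∈ B, Ext s v ∧ Lft R v t := by
    by_contra hcon
    exact hnot ⟨htB, hst, hcon⟩
  obtain ⟨v, hvB, hsv, d, hd1, hd2, hd3, hd4⟩ := hex
  refine ⟨v, hvB, ?_⟩
  intro w hw
  have hw' : Ext v w := hw
  have hsw : Ext s w := hsv.trans hw'
  have hgs : g < s.ht := lt_of_le_of_lt hn (by rw [hsh]; exact halt n)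
  refine ⟨lt_of_lt_of_le hgs hsw.1, fun x hx => ?_, Or.inr ⟨d, lt_of_lt_of_le hd1 hw'.1, hd2, ?_, ?_⟩⟩
  · have hxs : x < s.ht := lt_of_le_of_lt hx hgs
    rw [← hsw.2 x hxs, hst.2 x hxs]
  · intro x hx
    rw [← hw'.2 x (hx.trans hd1)]
    exact hd3 x hx
  · rw [← hw'.2 d hd1]; exact hd4

/-- every node of height at least `b` lies in a cone over a node of height exactly `b` -/
lemma exists_level {b : Om} (hb : ∃ c, c < b) {u : Node} (hu : b ≤ u.ht) :
    ∃ v : Node, v.ht = b ∧ u ∈ Cone v :=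
  ⟨u.res b hu hb, rfl, u.res_ext b hu hb⟩

lemma lindelof (hR : Good R) : LindelofSpace (Sp R) := by
  refine ⟨isLindelof_of_countable_subcover ?_⟩
  intro ι U hU hcov
  have hcov' : ∀ t : Node, ∃ i, t ∈ U i := fun t => by
    have := hcov (Set.mem_univ t)
    exact Set.mem_iUnion.1 this
  let B : Set Node := {v | ¬ ∃ c : Set ι, c.Countable ∧ Cone v ⊆ ⋃ i ∈ c, U i}
  have hB : ∀ v ∈ B, ∀ u, Ext u v → u ∈ B := by
    intro v hv u huv hcon
    apply hv
    obtain ⟨c, hc, hs⟩ := hcon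
    exact ⟨c, hc, fun w hw => hs (huv.trans hw)⟩
  have hBc : B.Countable := by
    by_contra hunc
    obtain ⟨t, htB, ht⟩ := core hR B hB hunc
    obtain ⟨i, hi⟩ := hcov' t
    obtain ⟨g, hg, hsub⟩ := isOpen_iff.1 (hU i) t hi
    obtain ⟨v, hvB, hv⟩ := ht g hg
    apply hvB
    refine ⟨{i}, Set.countable_singleton i, ?_⟩
    intro w hw
    exact Set.mem_biUnion (x := i) rfl (hsub (hv hw))
  obtain ⟨b0, hb0⟩ := Om.exists_bound (hBc.image (fun t : Node => t.ht))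
  obtain ⟨b, hb⟩ := Om.exists_bound (Set.countable_singleton b0)
  have hb' : b0 < b := hb b0 rfl
  have hgood : ∀ v : Node, v.ht = b → ∃ c : Set ι, c.Countable ∧ Cone v ⊆ ⋃ i ∈ c, U i := by
    intro v hv
    by_contra hcon
    have : v.ht < b0 := hb0 v.ht ⟨v, hcon, rfl⟩
    rw [hv] at this
    exact lt_asymm this hb'
  choose! C hC1 hC2 using hgood
  choose I hI using hcov'
  refine ⟨(⋃ v ∈ {v : Node | v.ht = b}, C v) ∪ (I '' {t : Node | t.ht ≤ b}), ?_, ?_⟩
  · exact ((level_countable b).biUnion (fun v hv => hC1 v hv)).union ((below_countable b).image I)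
  · intro t _
    rcases le_total (t : Node).ht b with h | h
    · exact Set.mem_biUnion (x := I t) (Or.inr ⟨t, h, rfl⟩) (hI t)
    · obtain ⟨v, hv, htv⟩ := exists_level ⟨b0, hb'⟩ h
      have := hC2 v hv htv
      obtain ⟨i, hi, hti⟩ := Set.mem_iUnion₂.1 this
      exact Set.mem_biUnion (x := i) (Or.inl (Set.mem_biUnion (x := v) hv hi)) hti

/-- Every continuous map to a regular Hausdorff second countable space has countable range. -/
lemma countable_range (hR : Good R) {M : Type*} [TopologicalSpace M] [T3Space M]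
    [SecondCountableTopology M] (h : Sp R → M) (hc : Continuous h) :
    (Set.range h).Countable := by
  classical
  let 𝔅 := TopologicalSpace.countableBasis M
  let P : Set (Set M × Set M) := {p | p.1 ∈ 𝔅 ∧ p.2 ∈ 𝔅 ∧ Disjoint (closure p.1) (closure p.2)}
  have hP : P.Countable := by
    refine ((TopologicalSpace.countable_countableBasis M).prod
      (TopologicalSpace.countable_countableBasis M)).mono ?_
    rintro ⟨U, V⟩ ⟨h1, h2, -⟩
    exact ⟨h1, h2⟩
  let B : Set M × Set M → Set Node := fun p =>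
    {v | (∃ u, u ∈ Cone v ∧ h u ∈ p.1) ∧ (∃ u, u ∈ Cone v ∧ h u ∈ p.2)}
  have hB : ∀ p, ∀ v ∈ B p, ∀ u, Ext u v → u ∈ B p := by
    rintro p v ⟨⟨w, hw1, hw2⟩, ⟨w', hw1', hw2'⟩⟩ u huv
    exact ⟨⟨w, huv.trans hw1, hw2⟩, ⟨w', huv.trans hw1', hw2'⟩⟩
  have hBc : ∀ p ∈ P, (B p).Countable := by
    rintro ⟨U, V⟩ ⟨-, -, hd⟩
    by_contra hunc
    obtain ⟨t, htB, ht⟩ := core hR (B (U, V)) (hB _) hunc
    by_cases htU : h t ∈ closure U
    · have htV : h t ∉ closure V := Set.disjoint_left.1 hd htU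
      have ho : IsOpen (h ⁻¹' (closure V)ᶜ) := (isClosed_closure.isOpen_compl).preimage hc
      obtain ⟨g, hg, hsub⟩ := isOpen_iff.1 ho t htV
      obtain ⟨v, ⟨-, ⟨u, hu1, hu2⟩⟩, hv⟩ := ht g hg
      exact hsub (hv hu1) (subset_closure hu2)
    · have ho : IsOpen (h ⁻¹' (closure U)ᶜ) := (isClosed_closure.isOpen_compl).preimage hc
      obtain ⟨g, hg, hsub⟩ := isOpen_iff.1 ho t htU
      obtain ⟨v, ⟨⟨u, hu1, hu2⟩, -⟩, hv⟩ := ht g hg
      exact hsub (hv hu1) (subset_closure hu2)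
  obtain ⟨b0, hb0⟩ := Om.exists_bound
    ((hP.biUnion (fun p hp => hBc p hp)).image (fun t : Node => t.ht))
  obtain ⟨b, hb⟩ := Om.exists_bound (Set.countable_singleton b0)
  have hb' : b0 < b := hb b0 rfl
  have hconst : ∀ v : Node, v.ht = b → ∀ u ∈ Cone v, ∀ w ∈ Cone v, h u = h w := by
    intro v hv u hu w hw
    by_contra hne
    obtain ⟨U', hU', hU'o, V', hV', hV'o, hd⟩ := exists_open_nhds_disjoint_closure hne
    have hbas := TopologicalSpace.isBasis_countableBasis M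
    obtain ⟨U, hU, huU, hUU'⟩ := hbas.exists_subset_of_mem_open hU' hU'o
    obtain ⟨V, hV, hwV, hVV'⟩ := hbas.exists_subset_of_mem_open hV' hV'o
    have hmem : (U, V) ∈ P := ⟨hU, hV, hd.mono (closure_mono hUU') (closure_mono hVV')⟩
    have hvB : v ∈ B (U, V) := ⟨⟨u, hu, huU⟩, ⟨w, hw, hwV⟩⟩
    have := hb0 v.ht ⟨v, Set.mem_biUnion hmem hvB, rfl⟩
    rw [hv] at this
    exact lt_asymm this hb'
  have hsub : Set.range h ⊆ (h '' {t : Node | t.ht ≤ b}) ∪ (h '' {t : Node | t.ht = b}) := by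
    rintro _ ⟨t, rfl⟩
    rcases le_total (t : Node).ht b with hle | hle
    · exact Or.inl ⟨t, hle, rfl⟩
    · obtain ⟨v, hv, htv⟩ := exists_level ⟨b0, hb'⟩ hle
      exact Or.inr ⟨v, hv, hconst v hv v (Ext.refl v) t htv⟩
  exact (((below_countable b).image h).union ((level_countable b).image h)).mono hsub

/-- The product of the two one-sided topologies is not Lindelöf. -/
lemma not_lindelof_prod : ¬ LindelofSpace (Sp (· < ·) × Sp (· > ·)) := by
  intro hL
  have hnb : ∀ z : Sp (· < ·) × Sp (· > ·), ∃ W ∈ 𝓝 z, {t : Node | ((t, t) : Node × Node) ∈ W}.Countable := by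
    rintro ⟨t, u⟩
    by_cases htu : (t : Node) = u
    · subst htu
      obtain ⟨g, hg⟩ := (t : Node).pos
      refine ⟨(Nb (· < ·) t g) ×ˢ (Nb (· > ·) t g), ?_, ?_⟩
      · exact prod_mem_nhds ((isOpen_Nb good_lt).mem_nhds (mem_Nb_self hg))
          ((isOpen_Nb good_gt).mem_nhds (mem_Nb_self hg))
      · refine (below_countable (t : Node).ht).mono ?_
        rintro w ⟨⟨-, -, h1⟩, ⟨-, -, h2⟩⟩
        rcases h1 with h1 | ⟨d, hd1, hd2, hd3, hd4⟩
        · exact h1.1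
        rcases h2 with h2 | ⟨e, he1, he2, he3, he4⟩
        · exact h2.1
        · exfalso
          simp only at hd4 he4
          rcases lt_trichotomy d e with h | h | h
          · rw [he3 d h] at hd4; exact lt_irrefl _ hd4
          · subst h; exact lt_asymm hd4 he4
          · rw [hd3 e h] at he4; exact lt_irrefl _ he4
    · obtain ⟨g, hg, g', hg', hd⟩ := Nb_sep good_lt good_gt htu
      refine ⟨(Nb (· < ·) t g) ×ˢ (Nb (· > ·) u g'), ?_, ?_⟩
      · exact prod_mem_nhds ((isOpen_Nb good_lt).mem_nhds (mem_Nb_self hg))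
          ((isOpen_Nb good_gt).mem_nhds (mem_Nb_self hg'))
      · refine Set.countable_empty.mono ?_
        rintro w ⟨h1, h2⟩
        exact (Set.disjoint_left.1 hd h1 h2).elim
  choose W hW hWc using hnb
  obtain ⟨c, hc, hcov⟩ := LindelofSpace.elim_nhds_subcover W hW
  apply node_uncountable
  have : (Set.univ : Set Node) ⊆ ⋃ z ∈ c, {t : Node | ((t, t) : Node × Node) ∈ W z} := by
    intro t _
    have hm : ((t, t) : Sp (· < ·) × Sp (· > ·)) ∈ ⋃ z ∈ c, W z := by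
      rw [hcov]; exact Set.mem_univ _
    rw [Set.mem_iUnion₂] at hm ⊢
    exact hm
  exact (hc.biUnion (fun z _ => hWc z)).mono this

end Pool.Agent.Lib.Pb69c94
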