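import Pool.Agent.Lib.Pb69c94.Omega1

/-!
The Aronszajn tree `Node` of all finite modifications of the members of the coherent family.
-/

namespace Pool.Agent.Lib.Pb69c94

open Set

/-- Nodes of the tree: functions `Iio ht → ℕ` (extended by zero) that agree with the coherent
family up to finitely many places; the root is left out. -/
@[ext]
structure Node : Type where
  /-- the height -/
  ht : Om
  /-- the function -/
  f : Om → ℕ
  pos : ∃ c, c < ht
  off : ∀ x, ¬ x < ht → f x = 0
  fin : {x | x < ht ∧ f x ≠ coh ht x}.Finite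

/-- `t` extends `s`. -/
def Ext (s t : Node) : Prop := s.ht ≤ t.ht ∧ ∀ x, x < s.ht → s.f x = t.f x

lemma Ext.refl (s : Node) : Ext s s := ⟨le_refl _, fun _ _ => rfl⟩

lemma Ext.trans {s t u : Node} (h1 : Ext s t) (h2 : Ext t u) : Ext s u :=
  ⟨h1.1.trans h2.1, fun x hx => (h1.2 x hx).trans (h2.2 x (lt_of_lt_of_le hx h1.1))⟩

lemma Node.ext_of_le {s t : Node} (h : Ext s t) (hh : t.ht ≤ s.ht) : s = t := by
  have he : s.ht = t.ht := le_antisymm h.1 hh
  apply Node.ext he
  funext x
  by_cases hx : x < s.ht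
  · exact h.2 x hx
  · rw [s.off x hx, t.off x (by rw [← he]; exact hx)]

/-- `u` is to the left of `t` (with respect to the relation `R` on values). -/
def Lft (R : ℕ → ℕ → Prop) (u t : Node) : Prop :=
  ∃ d, d < u.ht ∧ d < t.ht ∧ (∀ x, x < d → u.f x = t.f x) ∧ R (u.f d) (t.f d)

/-- Trichotomy. -/
lemma tri (R : ℕ → ℕ → Prop) (hR : ∀ a b, a ≠ b → R a b ∨ R b a) (s t : Node) :
    Ext s t ∨ Ext t s ∨ Lft R s t ∨ Lft R t s := by
  by_cases hd : ∃ d, d < s.ht ∧ d < t.ht ∧ s.f d ≠ t.f d
  · obtain ⟨d, ⟨hd1, hd2, hd3⟩, hmin⟩ :=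
      WellFounded.has_min (wellFounded_lt (α := Om)) {d | d < s.ht ∧ d < t.ht ∧ s.f d ≠ t.f d} hd
    have hag : ∀ x, x < d → s.f x = t.f x := by
      intro x hx
      by_contra hne
      exact hmin x ⟨hx.trans hd1, hx.trans hd2, hne⟩ hx
    rcases hR _ _ hd3 with h | h
    · right; right; left
      exact ⟨d, hd1, hd2, hag, h⟩
    · right; right; right
      exact ⟨d, hd2, hd1, fun x hx => (hag x hx).symm, h⟩
  · push Not at hd
    rcases le_total s.ht t.ht with h | h
    · left; exact ⟨h, fun x hx => hd x hx (lt_of_lt_of_le hx h)⟩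
    · right; left; exact ⟨h, fun x hx => (hd x (lt_of_lt_of_le hx h) hx).symm⟩

open Classical in
/-- Restriction of a node. -/
noncomputable def Node.res (t : Node) (a : Om) (ha : a ≤ t.ht) (hp : ∃ c, c < a) : Node where
  ht := a
  f := fun x => if x < a then t.f x else 0
  pos := hp
  off := fun x hx => by simp [hx]
  fin := by
    refine ((t.fin).union (coh_coherent ha)).subset ?_
    rintro x ⟨hx, hne⟩
    rw [if_pos hx] at hne
    by_cases h : t.f x = coh t.ht x
    · right; exact ⟨hx, fun h2 => hne (by rw [h, h2])⟩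
    · left; exact ⟨lt_of_lt_of_le hx ha, h⟩

lemma Node.res_ext (t : Node) (a : Om) (ha : a ≤ t.ht) (hp : ∃ c, c < a) :
    Ext (t.res a ha hp) t := ⟨ha, fun x hx => by
      have hx' : x < a := hx
      simp [Node.res, hx']⟩

lemma Node.res_ht (t : Node) (a : Om) (ha : a ≤ t.ht) (hp : ∃ c, c < a) :
    (t.res a ha hp).ht = a := rfl

/-- Two initial segments of the same height coincide. -/
lemma ext_unique {s s' t : Node} (h : Ext s t) (h' : Ext s' t) (hh : s.ht = s'.ht) : s = s' := by
  apply Node.ext hh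
  funext x
  by_cases hx : x < s.ht
  · rw [h.2 x hx, h'.2 x (hh ▸ hx)]
  · rw [s.off x hx, s'.off x (hh ▸ hx)]

/-- Two initial segments of a node are comparable. -/
lemma ext_comparable {s s' t : Node} (h : Ext s t) (h' : Ext s' t) (hh : s.ht ≤ s'.ht) :
    Ext s s' :=
  ⟨hh, fun x hx => by rw [h.2 x hx, h'.2 x (lt_of_lt_of_le hx hh)]⟩

/-- Levels are countable. -/
lemma level_countable (b : Om) : {t : Node | t.ht = b}.Countable := by
  set F : Node → Set (Om × ℕ) := fun t => {p | p.1 < b ∧ p.2 = t.f p.1 ∧ t.f p.1 ≠ coh b p.1} with hF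
  have hinj : Set.InjOn F {t : Node | t.ht = b} := by
    intro s hs t ht hst
    have hs' : s.ht = b := hs
    have ht' : t.ht = b := ht
    apply Node.ext (hs'.trans ht'.symm)
    funext x
    by_cases hx : x < b
    · by_cases h1 : s.f x = coh b x
      · by_cases h2 : t.f x = coh b x
        · rw [h1, h2]
        · have hm : (x, t.f x) ∈ F t := ⟨hx, rfl, h2⟩
          rw [← hst] at hm
          exact hm.2.1.symm
      · have hm : (x, s.f x) ∈ F s := ⟨hx, rfl, h1⟩
        rw [hst] at hm
        exact hm.2.1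
    · rw [s.off x (by rw [hs']; exact hx), t.off x (by rw [ht']; exact hx)]
  have hcount : (Set.Iio b ×ˢ (Set.univ : Set ℕ)).Countable :=
    (Om.countable_Iio b).prod (Set.to_countable _)
  have himg : (F '' {t : Node | t.ht = b}).Countable := by
    refine (Set.countable_ofPred_finite_subset hcount).mono ?_
    rintro _ ⟨t, ht, rfl⟩
    have ht' : t.ht = b := ht
    refine ⟨?_, ?_⟩
    · have h3 := t.fin
      rw [ht'] at h3
      refine (h3.image (fun x => (x, t.f x))).subset ?_
      rintro ⟨x, n⟩ ⟨h1, h2, h3⟩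
      exact ⟨x, ⟨h1, h3⟩, by simp only at h2; rw [h2]⟩
    · rintro ⟨x, n⟩ ⟨h1, h2, h3⟩
      exact ⟨h1, Set.mem_univ _⟩
  exact Set.countable_of_injective_of_countable_image hinj himg

lemma below_countable (b : Om) : {t : Node | t.ht ≤ b}.Countable := by
  have : {t : Node | t.ht ≤ b} = ⋃ a ∈ Set.Iic b, {t : Node | t.ht = a} := by
    ext t; simp
  rw [this]
  exact (Om.countable_Iic b).biUnion (fun a _ => level_countable a)

/-- Each node is a finite-to-one function. -/
lemma Node.finite_fiber (t : Node) (k : ℕ) : {x | x < t.ht ∧ t.f x = k}.Finite := by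
  refine (t.fin.union (coh_finite t.ht k)).subset ?_
  rintro x ⟨hx, hk⟩
  by_cases h : t.f x = coh t.ht x
  · right; exact ⟨hx, by omega⟩
  · left; exact ⟨hx, h⟩

/-- The tree is Aronszajn: every chain is countable. -/
lemma chain_countable (A : Set Node) (hA : ∀ s ∈ A, ∀ t ∈ A, Ext s t ∨ Ext t s) :
    A.Countable := by
  classical
  by_contra hunc
  -- heights are unbounded
  have hub : ∀ b : Om, ∃ t ∈ A, b < t.ht := by
    intro b
    by_contra hcon
    push Not at hcon
    exact hunc ((below_countable b).mono (fun t ht => hcon t ht))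
  choose T hTA hTh using hub
  let g : Om → ℕ := fun x => (T x).f x
  have hg : ∀ t ∈ A, ∀ x, x < t.ht → g x = t.f x := by
    intro t ht x hx
    rcases hA t ht (T x) (hTA x) with h | h
    · exact (h.2 x hx).symm
    · exact h.2 x (hTh x)
  have hfib : ∀ k, {x | g x = k}.Countable := by
    intro k
    by_contra hk
    -- an infinite countable subset
    have hinf : {x | g x = k}.Infinite := fun h => hk h.countable
    obtain ⟨S, hS, hSinf, hSc⟩ : ∃ S ⊆ {x | g x = k}, S.Infinite ∧ S.Countable := by
      let e := hinf.natEmbedding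
      refine ⟨Set.range (fun n => ((e n : {x | g x = k}) : Om)), ?_, ?_, Set.countable_range _⟩
      · rintro _ ⟨n, rfl⟩; exact (e n).2
      · exact Set.infinite_range_of_injective (fun a b h => e.injective (Subtype.ext h))
    obtain ⟨b, hb⟩ := Om.exists_bound hSc
    have ht := hTh b
    have hfin := (T b).finite_fiber k
    apply hSinf
    refine hfin.subset ?_
    intro x hx
    have hx1 : x < (T b).ht := (hb x hx).trans ht
    exact ⟨hx1, by rw [← hg (T b) (hTA b) x hx1]; exact hS hx⟩
  apply Om.not_countable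
  have : (Set.univ : Set Om) = ⋃ k, {x | g x = k} := by
    ext x; simp
  rw [this]
  exact Set.countable_iUnion hfib

/-- The tree is uncountable. -/
lemma node_uncountable : ¬ (Set.univ : Set Node).Countable := by
  intro hc
  have h1 : ((fun t : Node => t.ht) '' Set.univ).Countable := hc.image _
  obtain ⟨b, hb⟩ := Om.exists_bound h1
  have hlt : ∃ c : Om, c < b := by
    by_contra hcon
    push Not at hcon
    -- then `b` is the bottom; take a node of positive height anyway
    obtain ⟨b', hb'⟩ := Om.exists_bound (Set.countable_singleton b)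
    have hb'' : b < b' := hb' b rfl
    have hn : Node := ⟨b', coh b', ⟨b, hb''⟩, fun x hx => coh_of_not_lt hx, by
      refine Set.finite_empty.subset ?_
      rintro x ⟨-, h⟩; exact (h rfl).elim⟩
    exact absurd (hb hn.ht ⟨hn, Set.mem_univ _, rfl⟩) (not_lt.2 (hcon _))
  have hn := hb b ⟨⟨b, coh b, hlt, fun x hx => coh_of_not_lt hx, by
      refine Set.finite_empty.subset ?_
      rintro x ⟨-, h⟩; exact (h rfl).elim⟩, Set.mem_univ _, rfl⟩
  exact lt_irrefl _ hn

end Pool.Agent.Lib.Pb69c94
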